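import Pool.Agent.Helper376.CL.Asm
import Pool.Agent.Y469.SP.Bd
import Pool.Agent.Y469.CB.Free
import Pool.Agent.Y469.CB.Span

set_option autoImplicit false

/-!
Two compact metrizable spaces which are both Z-structure boundaries of all the groups `F_n × ℤ` with
`n ≥ 2` and which are not related by the equivalence relation generated by cell-like maps between
compact Hausdorff spaces, nor by the one generated by all maps with connected fibres over which all
circle valued functions lift to the line.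
-/

namespace Pool.Agent.Results.MP_ebfc1a_gt.ZigzagsAllRanks

open Pool.Agent.Helper376.CL Pool.Agent.Y469.SP Pool.Agent.Y469.CB

/-- A span of cell-like maps from a compact Hausdorff space is a special zigzag. -/
theorem eqvGen_of_cellLikeEquivalent {X Y : CompHaus.{0}} (h : CellLikeEquivalent X Y) :
    Relation.EqvGen CellLikeMap X Y := by
  obtain ⟨W, a1, a2, a3, f, g, hf, hg⟩ := h
  refine Relation.EqvGen.trans _ (CompHaus.of W) _ (Relation.EqvGen.symm _ _ ?_) ?_
  · exact Relation.EqvGen.rel _ _ ⟨f, hf⟩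
  · exact Relation.EqvGen.rel _ _ ⟨g, hg⟩

theorem result :
    (∃ Z₁ Z₂ : CompHaus.{0},
      (∀ n : ℕ, 2 ≤ n → IsZBoundary (FreeGroup (Fin n) × Multiplicative ℤ) Z₁ ∧
        IsZBoundary (FreeGroup (Fin n) × Multiplicative ℤ) Z₂) ∧
      ¬ CellLikeEquivalent Z₁ Z₂ ∧
      ¬ Relation.EqvGen (fun X Y : CompHaus.{0} => ∃ f : X → Y, IsCellLike f) Z₁ Z₂ ∧
      ¬ Relation.EqvGen (fun X Y : CompHaus.{0} => ∃ f : X → Y, Continuous f ∧
        ∀ y : Y, ConnectedSpace ↥(f ⁻¹' {y}) ∧
          ∀ u : ↥(f ⁻¹' {y}) → ℂ, Continuous u → (∀ c, ‖u c‖ = 1) →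
            ∃ θ : ↥(f ⁻¹' {y}) → ℝ, Continuous θ ∧
              ∀ c, u c = Complex.exp (Complex.I * θ c)) Z₁ Z₂) ∧
    (∀ (G H : Type) [Group G] [Group H] (φ : H →* G), Function.Injective φ →
      φ.range.FiniteIndex → ∀ (Z : Type) [TopologicalSpace Z], IsZBoundary G Z →
        IsZBoundary H Z) := by
  refine ⟨?_, fun G H _ _ φ hφ hfi Z _ h => boundary_finiteIndex φ hφ hfi h⟩
  obtain ⟨Z₁, Z₂, h₁, h₂, hn⟩ := boundaries
  refine ⟨Z₁, Z₂, ?_, fun h => hn (eqvGen_good_of_cellLike (eqvGen_of_cellLikeEquivalent h)),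
    fun h => hn (eqvGen_good_of_cellLike h), hn⟩
  intro n hn2
  obtain ⟨k, rfl⟩ : ∃ k, n = k + 2 := ⟨n - 2, by omega⟩
  exact ⟨boundary_finiteIndex (psi k) (psi_injective k) (psi_finiteIndex k) h₁,
    boundary_finiteIndex (psi k) (psi_injective k) (psi_finiteIndex k) h₂⟩

end Pool.Agent.Results.MP_ebfc1a_gt.ZigzagsAllRanks
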